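import Pool.Agent.helper34.NTA.Spec

/-!
# Row nta:CLA of MP_4536c8_co: classification of the short relations
-/

set_option autoImplicit false

namespace Pool.Agent.NTA

open Equiv

theorem CLA_rot1 (a b : ZMod 10) : (alt a b).rotate 1 = alt b a := rfl

theorem CLA_rot (a b : ZMod 10) (n : ℕ) : (alt a b).rotate n = alt a b ∨ (alt a b).rotate n = alt b a := by
  induction n with
  | zero => exact Or.inl (List.rotate_zero _)
  | succ n ih =>
    rw [← List.rotate_rotate]
    rcases ih with h | h
    · rw [h, CLA_rot1]
      exact Or.inr rfl
    · rw [h, CLA_rot1]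
      exact Or.inl rfl

theorem CLA_swap (u v : List (ZMod 10)) (a b c : ZMod 10) (h : c :: (v ++ u) = alt a b) :
    u ++ c :: v = alt a b ∨ u ++ c :: v = alt b a := by
  have h1 : u ++ c :: v = (alt a b).rotate (c :: v).length := by
    rw [← h, ← List.cons_append, List.rotate_append_length_eq]
  rw [h1]
  exact CLA_rot a b _

theorem CLA (hCLK : CLK_stmt) (hRED : RED_stmt) (hEVL : EVL_stmt) : CLA_stmt := by
  intro Q L _ _ r ι k π hr hfree hL w hw hch hne hlen
  have hsum : kn w + rn w = w.length := by
    unfold kn rn
    rw [List.length_eq_countP_add_countP (p := fun c => decide (KL c))]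
    congr 1
    refine List.countP_congr fun c _ => ?_
    simp
  by_cases hK : ∃ c ∈ w, KL c
  · obtain ⟨c, hc, hKc⟩ := hK
    obtain ⟨u, v, huv⟩ := List.append_of_mem hc
    have hperm : (c :: (v ++ u)).Perm w := by
      rw [huv, ← List.cons_append]
      exact List.perm_append_comm
    have hch' := hch
    rw [huv, List.isChain_append] at hch'
    obtain ⟨hu, hcv, hj⟩ := hch'
    have h1 : ((c :: (v ++ u)).map (gen r ι k)).prod = 1 := by
      rw [huv, List.map_append, List.prod_append] at hw
      rw [← List.cons_append, List.map_append, List.prod_append]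
      exact mul_eq_one_comm.1 hw
    have h2 : (c :: (v ++ u)).IsChain (· ≠ ·) := by
      rw [← List.cons_append, List.isChain_append]
      refine ⟨hcv, hu, fun x hx y hy hxy => ?_⟩
      apply hne
      rw [huv, List.head?_append, List.getLast?_append]
      rw [Option.mem_def] at hx hy
      rw [hx, hy, hxy]
      rfl
    have h3 : (c :: (v ++ u)).head? ≠ (c :: (v ++ u)).getLast? := by
      rw [← List.cons_append, List.getLast?_append]
      cases hul : u.getLast? with
      | none =>
        have hu0 : u = [] := List.getLast?_eq_none_iff.1 hul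
        subst hu0
        rw [huv] at hne
        exact hne
      | some z =>
        intro h
        have h' : (some c : Option (ZMod 10)) = some z := h
        refine hj z (by rw [hul]; rfl) c rfl ?_
        exact (Option.some.inj h').symm
    have h4 : 45 * kn (c :: (v ++ u)) + rn (c :: (v ++ u)) ≤ 224 := by
      unfold kn rn at hlen ⊢
      rw [hperm.countP_eq, hperm.countP_eq]
      exact hlen
    rcases hCLK Q L r ι k π hr hfree hL c (v ++ u) hKc h1 h2 h3 h4 with h | h
    · refine ⟨c, ?_⟩
      rw [huv]
      exact CLA_swap u v c (c + 1) c h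
    · refine ⟨c - 1, ?_⟩
      rw [huv, sub_add_cancel]
      exact (CLA_swap u v c (c - 1) c h).symm
  · exfalso
    push Not at hK
    have h0 : w = [] := by
      refine (hRED Q r hr hfree w hch ?_ hK).1 ((hEVL Q L r ι k π hL w).2.2.2.2 hw).1
      omega
    rw [h0] at hne
    exact hne rfl

end Pool.Agent.NTA
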